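import Mathlib

/-!
# A monoid with context-free word problem whose group of units is not finitely generated

The monoid is `⟨a, b, c | (a bⁿ c)² = 1 (n ≥ 0)⟩`.
-/

namespace Pool.Agent.Results.MP_435286_al.UnitsNotFG

/-- The word problem `{u # v^rev : π(u) = π(v)}` of a monoid with respect to the generators
given by `π : A* → M`, over the alphabet `A ∪ {#}` (the letter `#` is `none`). -/
def WP {A M : Type} [Monoid M] (π : FreeMonoid A →* M) : Language (Option A) :=
  {w | ∃ u v : List A, π (FreeMonoid.ofList u) = π (FreeMonoid.ofList v) ∧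
    w = u.map some ++ [none] ++ v.reverse.map some}

/-- The word `a bⁿ c`. -/
def xw (n : ℕ) : List (Fin 3) := 0 :: (List.replicate n 1 ++ [2])

/-- The defining relations. -/
def rels (u v : FreeMonoid (Fin 3)) : Prop := ∃ n, u = FreeMonoid.ofList (xw n ++ xw n) ∧ v = 1

/-- The monoid. -/
abbrev M : Type := PresentedMonoid rels

/-- The image of a word in the monoid. -/
def P (w : List (Fin 3)) : M := PresentedMonoid.mk rels (FreeMonoid.ofList w)

theorem P_nil : P [] = 1 := map_one _

theorem P_append (u v : List (Fin 3)) : P (u ++ v) = P u * P v := map_mul _ _ _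

theorem P_rel (n : ℕ) : P (xw n) * P (xw n) = 1 := by
  rw [← P_append]
  exact PresentedMonoid.mk_eq_mk_of_rel ⟨n, rfl, rfl⟩

theorem P_surj (x : M) : ∃ w, P w = x := by
  obtain ⟨w, rfl⟩ := PresentedMonoid.surjective_mk (rels := rels) x
  exact ⟨FreeMonoid.toList w, rfl⟩

/-- Invariance of an action of the letters that fixes everything under the relators. -/
theorem invariance {X : Type} (run : X → Fin 3 → X)
    (h : ∀ n x, List.foldl run x (xw n ++ xw n) = x) {u v : List (Fin 3)} (huv : P u = P v) :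
    ∀ x, List.foldl run x u = List.foldl run x v := by
  let F : FreeMonoid (Fin 3) →* (Function.End X)ᵐᵒᵖ :=
    FreeMonoid.lift (fun a => MulOpposite.op (fun x => run x a))
  have hF : ∀ (w : List (Fin 3)) (x : X), (F (FreeMonoid.ofList w)).unop x =
      List.foldl run x w := by
    intro w
    induction w with
    | nil => intro x; rfl
    | cons a w ih =>
      intro x
      have e : FreeMonoid.ofList (a :: w) = FreeMonoid.of a * FreeMonoid.ofList w := rfl
      rw [e, map_mul, MulOpposite.unop_mul]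
      show (F (FreeMonoid.ofList w)).unop ((F (FreeMonoid.of a)).unop x) = _
      rw [ih]
      rfl
  have hle : conGen rels ≤ Con.ker F := by
    rw [Con.conGen_le]
    rintro u v ⟨n, rfl, rfl⟩
    rw [Con.ker_rel, map_one]
    apply MulOpposite.unop_injective
    funext x
    rw [hF]
    exact h n x
  have h1 : conGen rels (FreeMonoid.ofList u) (FreeMonoid.ofList v) :=
    PresentedMonoid.mk_eq_mk_iff.1 huv
  have h2 := hle h1
  rw [Con.ker_rel] at h2
  intro x
  rw [← hF, ← hF, h2]

/-! ### The group of units is not finitely generated -/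

/-- The stack machine with a counter modulo two for the letter `a bⁿ c`. -/
def run (n : ℕ) : Option (List ℕ × ZMod 2) → Fin 3 → Option (List ℕ × ZMod 2)
  | none, _ => none
  | some (s, k), 0 => some (0 :: s, k)
  | some ([], _), 1 => none
  | some (m :: s, k), 1 => some ((m + 1) :: s, k)
  | some ([], _), 2 => none
  | some (m :: s, k), 2 => some (s, if m = n then k + 1 else k)

theorem run_none (n : ℕ) (w : List (Fin 3)) : List.foldl (run n) none w = none := by
  induction w with
  | nil => rfl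
  | cons a w ih => exact ih

theorem run_b (n : ℕ) (j : ℕ) : ∀ (m : ℕ) (s : List ℕ) (k : ZMod 2),
    List.foldl (run n) (some (m :: s, k)) (List.replicate j 1) = some ((m + j) :: s, k) := by
  induction j with
  | zero => intro m s k; rfl
  | succ j ih =>
    intro m s k
    rw [List.replicate_succ, List.foldl_cons]
    show List.foldl (run n) (some ((m + 1) :: s, k)) (List.replicate j 1) = _
    rw [ih]
    congr 3
    ring

theorem run_xw (n m : ℕ) (s : List ℕ) (k : ZMod 2) :
    List.foldl (run n) (some (s, k)) (xw m) = some (s, if m = n then k + 1 else k) := by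
  unfold xw
  rw [List.foldl_cons, List.foldl_append]
  show List.foldl (run n) (List.foldl (run n) (some (0 :: s, k)) (List.replicate m 1)) [2] = _
  rw [run_b, Nat.zero_add]
  rfl

theorem run_rel (n m : ℕ) (x : Option (List ℕ × ZMod 2)) :
    List.foldl (run n) x (xw m ++ xw m) = x := by
  rcases x with _ | ⟨s, k⟩
  · exact run_none _ _
  · rw [List.foldl_append, run_xw, run_xw]
    congr 2
    split_ifs
    · rw [add_assoc, CharTwo.add_self_eq_zero, add_zero]
    · rfl

theorem run_inv (n : ℕ) {u v : List (Fin 3)} (huv : P u = P v) :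
    ∀ x, List.foldl (run n) x u = List.foldl (run n) x v :=
  invariance (run n) (fun m x => run_rel n m x) huv

/-- Translation: the action does not look below the initial stack. -/
theorem run_trans (n : ℕ) : ∀ (w : List (Fin 3)) (s t r : List ℕ) (k j l : ZMod 2),
    List.foldl (run n) (some (s, k)) w = some (t, j) →
      List.foldl (run n) (some (s ++ r, k + l)) w = some (t ++ r, j + l) := by
  intro w
  induction w with
  | nil =>
    intro s t r k j l h
    simp only [List.foldl_nil, Option.some.injEq, Prod.mk.injEq] at h ⊢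
    rw [h.1, h.2]; exact ⟨rfl, rfl⟩
  | cons a w ih =>
    intro s t r k j l h
    rw [List.foldl_cons] at h ⊢
    have ha : a = 0 ∨ a = 1 ∨ a = 2 := by fin_cases a <;> simp
    rcases ha with rfl | rfl | rfl
    · exact ih (0 :: s) t r k j l h
    · rcases s with _ | ⟨m, s⟩
      · rw [show run n (some ([], k)) 1 = none from rfl, run_none] at h
        exact absurd h (by simp)
      · exact ih ((m + 1) :: s) t r k j l h
    · rcases s with _ | ⟨m, s⟩
      · rw [show run n (some ([], k)) 2 = none from rfl, run_none] at h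
        exact absurd h (by simp)
      · have e : run n (some (m :: s ++ r, k + l)) 2 =
            some (s ++ r, (if m = n then k + 1 else k) + l) := by
          show some (s ++ r, if m = n then k + l + 1 else k + l) = _
          congr 2
          split_ifs
          · ring
          · rfl
        rw [e]
        exact ih s t r _ j l h

/-- Short words do not touch the counter. -/
theorem run_short (n : ℕ) : ∀ (w : List (Fin 3)) (s t : List ℕ) (j : ZMod 2),
    w.length ≤ n → (∀ m ∈ s, m + w.length ≤ n) →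
    List.foldl (run n) (some (s, 0)) w = some (t, j) → j = 0 := by
  intro w
  induction w with
  | nil =>
    intro s t j _ _ h
    simp only [List.foldl_nil, Option.some.injEq, Prod.mk.injEq] at h
    exact h.2.symm
  | cons a w ih =>
    intro s t j hn hs h
    rw [List.foldl_cons] at h
    rw [List.length_cons] at hn
    have ha : a = 0 ∨ a = 1 ∨ a = 2 := by fin_cases a <;> simp
    rcases ha with rfl | rfl | rfl
    · refine ih (0 :: s) t j (by omega) ?_ h
      intro m hm
      rcases List.mem_cons.1 hm with rfl | hm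
      · omega
      · have := hs m hm
        rw [List.length_cons] at this
        omega
    · rcases s with _ | ⟨m, s⟩
      · rw [show run n (some ([], 0)) 1 = none from rfl, run_none] at h
        exact absurd h (by simp)
      · refine ih ((m + 1) :: s) t j (by omega) ?_ h
        intro m' hm'
        rcases List.mem_cons.1 hm' with rfl | hm'
        · have := hs m (by simp)
          rw [List.length_cons] at this
          omega
        · have := hs m' (by simp [hm'])
          rw [List.length_cons] at this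
          omega
    · rcases s with _ | ⟨m, s⟩
      · rw [show run n (some ([], 0)) 2 = none from rfl, run_none] at h
        exact absurd h (by simp)
      · have hm := hs m (by simp)
        rw [List.length_cons] at hm
        have e : run n (some (m :: s, 0)) 2 = some (s, 0) := by
          show some (s, if m = n then (0 : ZMod 2) + 1 else 0) = _
          rw [if_neg (by omega)]
        rw [e] at h
        refine ih s t j (by omega) ?_ h
        intro m' hm'
        have := hs m' (by simp [hm'])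
        rw [List.length_cons] at this
        omega

/-- Words representing units return to the empty stack. -/
theorem run_unit (n : ℕ) {u v : List (Fin 3)} (huv : P u * P v = 1) (hvu : P v * P u = 1) :
    ∃ j, List.foldl (run n) (some ([], 0)) u = some ([], j) := by
  have h1 : ∀ x, List.foldl (run n) (List.foldl (run n) x u) v = x := by
    intro x
    rw [← List.foldl_append]
    exact run_inv n (u := u ++ v) (v := []) (by rw [P_append, huv, P_nil]) x
  have h2 : ∀ x, List.foldl (run n) (List.foldl (run n) x v) u = x := by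
    intro x
    rw [← List.foldl_append]
    exact run_inv n (u := v ++ u) (v := []) (by rw [P_append, hvu, P_nil]) x
  rcases hu : List.foldl (run n) (some ([], 0)) u with _ | ⟨t, j⟩
  · have := h1 (some ([], 0))
    rw [hu, run_none] at this
    exact absurd this (by simp)
  · rcases hv : List.foldl (run n) (some ([], 0)) v with _ | ⟨t', j'⟩
    · have := h2 (some ([], 0))
      rw [hv, run_none] at this
      exact absurd this (by simp)
    · have h3 := run_trans n v [] t' t 0 j' j hv
      have h4 := h1 (some ([], 0))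
      rw [hu] at h4
      rw [List.nil_append, zero_add, h4] at h3
      simp only [Option.some.injEq, Prod.mk.injEq] at h3
      have h5 := (List.append_eq_nil_iff.1 h3.1.symm).2
      exact ⟨j, by rw [h5]⟩

/-- The words representing elements that act trivially. -/
def triv (n : ℕ) : Subgroup Mˣ where
  carrier := {x | ∀ w, P w = (x : M) → ∀ s k,
    List.foldl (run n) (some (s, k)) w = some (s, k)}
  one_mem' := by
    intro w hw s k
    have := run_inv n (u := w) (v := []) (by rw [hw, P_nil]; rfl) (some (s, k))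
    exact this
  mul_mem' := by
    intro x y hx hy w hw s k
    obtain ⟨u, hu⟩ := P_surj (x : M)
    obtain ⟨v, hv⟩ := P_surj (y : M)
    have h1 := run_inv n (u := w) (v := u ++ v)
      (by rw [hw, P_append, hu, hv]; rfl) (some (s, k))
    rw [h1, List.foldl_append, hx u hu, hy v hv]
  inv_mem' := by
    intro x hx w hw s k
    obtain ⟨u, hu⟩ := P_surj (x : M)
    have h1 := run_inv n (u := u ++ w) (v := [])
      (by rw [P_append, hu, hw, P_nil]; exact x.mul_inv) (some (s, k))
    rw [List.foldl_append, hx u hu] at h1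
    exact h1

theorem not_fg : ¬ Group.FG Mˣ := by
  classical
  intro hfg
  obtain ⟨S, hS⟩ := Group.fg_def.1 hfg
  choose g hg using fun x : M => P_surj x
  set n := S.sup (fun x : Mˣ => (g (x : M)).length) + 1 with hn
  have hle : Subgroup.closure (S : Set Mˣ) ≤ triv n := by
    rw [Subgroup.closure_le]
    intro x hx w hw s k
    have hlen : (g (x : M)).length ≤ n := by
      have := Finset.le_sup (f := fun x : Mˣ => (g (x : M)).length) hx
      omega
    rw [run_inv n (u := w) (v := g (x : M)) (by rw [hw, hg]) (some (s, k))]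
    obtain ⟨j, hj⟩ := run_unit n (u := g (x : M)) (v := g ((x⁻¹ : Mˣ) : M))
      (by rw [hg, hg]; exact x.mul_inv) (by rw [hg, hg]; exact x.inv_mul)
    have hj0 := run_short n _ [] [] j hlen (by simp) hj
    subst hj0
    have := run_trans n (g (x : M)) [] [] s 0 0 k hj
    simpa using this
  rw [hS] at hle
  let X : Mˣ := ⟨P (xw n), P (xw n), P_rel n, P_rel n⟩
  have hX : X ∈ triv n := hle (Subgroup.mem_top X)
  have := hX (xw n) rfl [] 0
  rw [run_xw, if_pos rfl] at this
  simp at this

/-! ### Normal forms -/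

/-- `s` starts with `bᵐ a c bᵐ a`. -/
def Pat (m : ℕ) (s' s : List (Fin 3)) : Prop :=
  s = List.replicate m 1 ++ 0 :: 2 :: (List.replicate m 1 ++ 0 :: s')

theorem rep_inj : ∀ {n m : ℕ} {t t' : List (Fin 3)},
    List.replicate n (1 : Fin 3) ++ 0 :: t = List.replicate m 1 ++ 0 :: t' → n = m ∧ t = t' := by
  intro n
  induction n with
  | zero =>
    intro m t t' h
    rcases m with _ | m
    · simpa using h
    · simp [List.replicate_succ] at h
  | succ n ih =>
    intro m t t' h
    rcases m with _ | m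
    · simp [List.replicate_succ] at h
    · rw [List.replicate_succ, List.replicate_succ, List.cons_append, List.cons_append,
        List.cons.injEq] at h
      obtain ⟨h1, h2⟩ := ih h.2
      exact ⟨by omega, h2⟩

theorem pat_uniq {m m' : ℕ} {s s' t : List (Fin 3)} (h : Pat m s t) (h' : Pat m' s' t) :
    s = s' := by
  unfold Pat at h h'
  rw [h] at h'
  obtain ⟨rfl, h2⟩ := rep_inj h'
  rw [List.cons.injEq] at h2
  exact (rep_inj h2.2).2

open Classical in
/-- The action of a letter on a stack (top first). -/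
noncomputable def act (s : List (Fin 3)) (x : Fin 3) : List (Fin 3) :=
  if h : x = 2 ∧ ∃ s' m, Pat m s' s then h.2.choose else x :: s

theorem act_pop {m : ℕ} {s' s : List (Fin 3)} (h : Pat m s' s) : act s 2 = s' := by
  have hex : (2 : Fin 3) = 2 ∧ ∃ s' m, Pat m s' s := ⟨rfl, s', m, h⟩
  unfold act
  rw [dif_pos hex]
  obtain ⟨m', h'⟩ := hex.2.choose_spec
  exact pat_uniq h' h

theorem act_push {s : List (Fin 3)} (h : ∀ s' m, ¬ Pat m s' s) : act s 2 = 2 :: s := by
  unfold act
  rw [dif_neg]
  rintro ⟨-, s', m, h'⟩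
  exact h s' m h'

theorem act_ne {s : List (Fin 3)} {x : Fin 3} (hx : x ≠ 2) : act s x = x :: s := by
  unfold act
  rw [dif_neg]
  rintro ⟨h, -⟩
  exact hx h

/-- Irreducible stacks. -/
def Irr : List (Fin 3) → Prop
  | [] => True
  | x :: s => Irr s ∧ ¬ (x = 2 ∧ ∃ s' m, Pat m s' s)

theorem irr_tail : ∀ {u s : List (Fin 3)}, Irr (u ++ s) → Irr s := by
  intro u
  induction u with
  | nil => intro s h; exact h
  | cons x u ih => intro s h; exact ih h.1

theorem irr_act {s : List (Fin 3)} (h : Irr s) (x : Fin 3) : Irr (act s x) := by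
  by_cases hx : x = 2 ∧ ∃ s' m, Pat m s' s
  · obtain ⟨rfl, s', m, hp⟩ := hx
    rw [act_pop hp]
    rw [hp] at h
    have h1 := irr_tail h
    exact irr_tail (u := List.replicate m 1) h1.1.1 |>.1
  · unfold act
    rw [dif_neg hx]
    exact ⟨h, hx⟩

theorem act_b (n : ℕ) : ∀ s : List (Fin 3),
    List.foldl act s (List.replicate n 1) = List.replicate n 1 ++ s := by
  induction n with
  | zero => intro s; rfl
  | succ n ih =>
    intro s
    rw [List.replicate_succ, List.foldl_cons, act_ne (by decide), ih, List.cons_append,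
      show (1 : Fin 3) :: s = [1] ++ s from rfl, ← List.append_assoc, ← List.replicate_succ',
      List.replicate_succ, List.cons_append]

theorem act_xw (n : ℕ) (s : List (Fin 3)) :
    List.foldl act s (xw n) = act (List.replicate n 1 ++ 0 :: s) 2 := by
  unfold xw
  rw [List.foldl_cons, List.foldl_append, act_ne (by decide), act_b]
  rfl

theorem act_rel (n : ℕ) {s : List (Fin 3)} (hs : Irr s) :
    List.foldl act s (xw n ++ xw n) = s := by
  rw [List.foldl_append]
  by_cases h : ∃ s', s = 2 :: (List.replicate n 1 ++ 0 :: s')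
  · obtain ⟨s', rfl⟩ := h
    have h1 : List.foldl act (2 :: (List.replicate n 1 ++ 0 :: s')) (xw n) = s' := by
      rw [act_xw]
      exact act_pop (m := n) (s' := s') rfl
    rw [h1, act_xw]
    apply act_push
    rintro s'' m hp
    unfold Pat at hp
    obtain ⟨rfl, h2⟩ := rep_inj hp
    apply hs.2
    exact ⟨rfl, s'', n, by rw [h2]; rfl⟩
  · have h1 : List.foldl act s (xw n) = 2 :: (List.replicate n 1 ++ 0 :: s) := by
      rw [act_xw]
      apply act_push
      rintro s' m hp
      unfold Pat at hp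
      obtain ⟨rfl, h2⟩ := rep_inj hp
      exact h ⟨s', h2⟩
    rw [h1, act_xw]
    exact act_pop (m := n) rfl

/-- The normal form (as a stack). -/
noncomputable def nf (w : List (Fin 3)) : List (Fin 3) := List.foldl act [] w

theorem nf_inv {u v : List (Fin 3)} (huv : P u = P v) : nf u = nf v := by
  let r : {s // Irr s} → Fin 3 → {s // Irr s} := fun s x => ⟨act s.1 x, irr_act s.2 x⟩
  have hr : ∀ (w : List (Fin 3)) (s : {s // Irr s}),
      (List.foldl r s w).1 = List.foldl act s.1 w := by
    intro w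
    induction w with
    | nil => intro s; rfl
    | cons a w ih => intro s; rw [List.foldl_cons, List.foldl_cons, ih]
  have h := invariance r (fun n x => Subtype.ext (by rw [hr]; exact act_rel n x.2)) huv
    ⟨[], trivial⟩
  have h2 := congrArg Subtype.val h
  rw [hr, hr] at h2
  exact h2

/-! ### Words equal to one -/

mutual
/-- Words of the form generated by `D → ε | a D T c D`. -/
inductive DD : List (Fin 3) → Prop
  | nil : DD []
  | cons {d t d' : List (Fin 3)} : DD d → TT t → DD d' → DD ([0] ++ d ++ t ++ [2] ++ d')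
/-- Words of the form generated by `T → c D a D | b D T b D`. -/
inductive TT : List (Fin 3) → Prop
  | base {d d' : List (Fin 3)} : DD d → DD d' → TT ([2] ++ d ++ [0] ++ d')
  | step {d t d' : List (Fin 3)} : DD d → TT t → DD d' → TT ([1] ++ d ++ t ++ [1] ++ d')
end

theorem DD_append {u v : List (Fin 3)} (hu : DD u) (hv : DD v) : DD (u ++ v) := by
  obtain ⟨n, hn⟩ : ∃ n, u.length = n := ⟨_, rfl⟩
  induction n using Nat.strong_induction_on generalizing u with
  | _ n ih =>
    cases hu with
    | nil => exact hv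
    | @cons d t d' h1 h2 h3 =>
      have := ih d'.length (by rw [← hn]; simp; omega) h3 rfl
      have e : [0] ++ d ++ t ++ [2] ++ d' ++ v = [0] ++ d ++ t ++ [2] ++ (d' ++ v) := by simp
      rw [e]
      exact DD.cons h1 h2 this

/-- `w` is in `(b D)ⁿ`, built from the right. -/
inductive PR : ℕ → List (Fin 3) → Prop
  | zero : PR 0 []
  | succ {n : ℕ} {w d : List (Fin 3)} : PR n w → DD d → PR (n + 1) (w ++ ([1] ++ d))

/-- `w` is in `(b D)ⁿ`, built from the left. -/
inductive PL : ℕ → List (Fin 3) → Prop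
  | zero : PL 0 []
  | succ {n : ℕ} {w d : List (Fin 3)} : PL n w → DD d → PL (n + 1) (([1] ++ d) ++ w)

theorem PL_right {n : ℕ} {w d : List (Fin 3)} (h : PL n w) (hd : DD d) :
    PL (n + 1) (w ++ ([1] ++ d)) := by
  induction h with
  | zero => simpa using PL.succ PL.zero hd
  | @succ n w d' _ hd' ih =>
    rw [List.append_assoc]
    exact PL.succ ih hd'

theorem PL_of_PR {n : ℕ} {w : List (Fin 3)} (h : PR n w) : PL n w := by
  induction h with
  | zero => exact PL.zero
  | succ _ hd ih => exact PL_right ih hd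

theorem TT_wrap {n : ℕ} {l : List (Fin 3)} (hl : PR n l) : ∀ {m r : List (Fin 3)}, TT m →
    PL n r → TT (l ++ m ++ r) := by
  induction hl with
  | zero =>
    intro m r hm hr
    cases hr
    simpa using hm
  | @succ n w d _ hd ih =>
    intro m r hm hr
    cases hr with
    | @succ _ r' d' hr' hd' =>
      have := ih (TT.step hd hm hd') hr'
      simpa using this

/-- `EE s w`: the word `w` is in `D z₁ D z₂ ⋯ z_k D` where `s = z_k ⋯ z₁`. -/
inductive EE : List (Fin 3) → List (Fin 3) → Prop
  | base {d : List (Fin 3)} : DD d → EE [] d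
  | step {s w d : List (Fin 3)} {z : Fin 3} : EE s w → DD d → EE (z :: s) (w ++ ([z] ++ d))

theorem EE_append {s w d : List (Fin 3)} (h : EE s w) (hd : DD d) : EE s (w ++ d) := by
  cases h with
  | base h => exact EE.base (DD_append h hd)
  | @step s w d' z h h' =>
    rw [List.append_assoc, List.append_assoc]
    exact EE.step h (DD_append h' hd)

theorem EE_rep {n : ℕ} : ∀ {s w : List (Fin 3)}, EE (List.replicate n 1 ++ s) w →
    ∃ w' t, w = w' ++ t ∧ EE s w' ∧ PR n t := by
  induction n with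
  | zero => intro s w h; exact ⟨w, [], by simp, h, PR.zero⟩
  | succ n ih =>
    intro s w h
    rw [List.replicate_succ, List.cons_append] at h
    cases h with
    | @step _ w' d _ h hd =>
      obtain ⟨w'', t, rfl, h1, h2⟩ := ih h
      exact ⟨w'', t ++ ([1] ++ d), by simp, h1, PR.succ h2 hd⟩

theorem EE_act {s w : List (Fin 3)} (h : EE s w) (x : Fin 3) : EE (act s x) (w ++ [x]) := by
  by_cases hx : x = 2 ∧ ∃ s' m, Pat m s' s
  · obtain ⟨rfl, s', m, hp⟩ := hx
    rw [act_pop hp]
    unfold Pat at hp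
    subst hp
    obtain ⟨w1, t1, rfl, h1, p1⟩ := EE_rep h
    cases h1 with
    | @step _ w2 d _ h2 hd =>
      cases h2 with
      | @step _ w3 e _ h3 he =>
        obtain ⟨w4, t2, rfl, h4, p2⟩ := EE_rep h3
        cases h4 with
        | @step _ w5 f _ h5 hf =>
          have hT := TT_wrap p2 (TT.base he hd) (PL_of_PR p1)
          have hD := DD.cons hf hT DD.nil
          have := EE_append h5 hD
          simpa using this
  · unfold act
    rw [dif_neg hx]
    exact EE.step h DD.nil

theorem EE_nf (w : List (Fin 3)) : EE (nf w) w := by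
  induction w using List.reverseRecOn with
  | nil => exact EE.base DD.nil
  | append_singleton w x ih =>
    have : nf (w ++ [x]) = act (nf w) x := by simp [nf]
    rw [this]
    exact EE_act ih x

/-! ### The context-free grammar -/

/-- Nonterminals. -/
inductive NT
  | S | D | T | Dr | Tr
deriving DecidableEq

/-- Sentential forms. -/
abbrev SF : Type := List (Symbol (Option (Fin 3)) NT)

/-- The terminal for a letter. -/
abbrev tm (x : Fin 3) : Symbol (Option (Fin 3)) NT := .terminal (some x)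

/-- The nonterminal as a symbol. -/
abbrev nt (A : NT) : Symbol (Option (Fin 3)) NT := .nonterminal A

/-- The rules of the grammar. -/
def ruleSet : Finset (ContextFreeRule (Option (Fin 3)) NT) := {⟨.S, [nt .D, .terminal none, nt .Dr]⟩,
    ⟨.S, [nt .D, tm 0, nt .S, tm 0, nt .Dr]⟩,
    ⟨.S, [nt .D, tm 1, nt .S, tm 1, nt .Dr]⟩,
    ⟨.S, [nt .D, tm 2, nt .S, tm 2, nt .Dr]⟩,
    ⟨.D, []⟩, ⟨.D, [tm 0, nt .D, nt .T, tm 2, nt .D]⟩,
    ⟨.T, [tm 2, nt .D, tm 0, nt .D]⟩, ⟨.T, [tm 1, nt .D, nt .T, tm 1, nt .D]⟩,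
    ⟨.Dr, []⟩, ⟨.Dr, [nt .Dr, tm 2, nt .Tr, nt .Dr, tm 0]⟩,
    ⟨.Tr, [nt .Dr, tm 0, nt .Dr, tm 2]⟩, ⟨.Tr, [nt .Dr, tm 1, nt .Tr, nt .Dr, tm 1]⟩}

/-- The grammar of the word problem. -/
def GG : ContextFreeGrammar (Option (Fin 3)) where
  NT := NT
  initial := .S
  rules := ruleSet

/-- Derivability of a terminal word from a sentential form. -/
def Dv (f : SF) (w : List (Option (Fin 3))) : Prop := GG.Derives f (w.map Symbol.terminal)

theorem dv_nil : Dv [] [] := ContextFreeGrammar.Derives.refl _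

theorem dv_append {f f' : SF} {w w' : List (Option (Fin 3))} (h : Dv f w) (h' : Dv f' w') :
    Dv (f ++ f') (w ++ w') := by
  unfold Dv at *
  rw [List.map_append]
  exact (h.append_right f').trans (h'.append_left _)

theorem dv_tm (x : Option (Fin 3)) : Dv [.terminal x] [x] := ContextFreeGrammar.Derives.refl _

theorem dv_rule {A : NT} {f : SF} {w : List (Option (Fin 3))}
    (hr : (⟨A, f⟩ : ContextFreeRule (Option (Fin 3)) NT) ∈ ruleSet) (h : Dv f w) :
    Dv [nt A] w := by
  refine ContextFreeGrammar.Produces.trans_derives ?_ h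
  exact ⟨⟨A, f⟩, hr, ContextFreeRule.Rewrites.input_output⟩

/-- Letters as terminals. -/
abbrev sm (w : List (Fin 3)) : List (Option (Fin 3)) := w.map some

theorem dv_cat5 {f1 f2 f3 f4 f5 : SF} {w1 w2 w3 w4 w5 : List (Option (Fin 3))} (h1 : Dv f1 w1)
    (h2 : Dv f2 w2) (h3 : Dv f3 w3) (h4 : Dv f4 w4) (h5 : Dv f5 w5) :
    Dv (f1 ++ f2 ++ f3 ++ f4 ++ f5) (w1 ++ w2 ++ w3 ++ w4 ++ w5) :=
  dv_append (dv_append (dv_append (dv_append h1 h2) h3) h4) h5

theorem dv_cat4 {f1 f2 f3 f4 : SF} {w1 w2 w3 w4 : List (Option (Fin 3))} (h1 : Dv f1 w1)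
    (h2 : Dv f2 w2) (h3 : Dv f3 w3) (h4 : Dv f4 w4) :
    Dv (f1 ++ f2 ++ f3 ++ f4) (w1 ++ w2 ++ w3 ++ w4) :=
  dv_append (dv_append (dv_append h1 h2) h3) h4

mutual
theorem DD_dv : ∀ {w : List (Fin 3)}, DD w → Dv [nt .D] (sm w) ∧ Dv [nt .Dr] (sm w.reverse)
  | _, .nil => ⟨dv_rule (f := []) (by simp [ruleSet]) dv_nil, dv_rule (f := []) (by simp [ruleSet]) dv_nil⟩
  | _, .cons (d := d) (t := t) (d' := d') h1 h2 h3 => by
    obtain ⟨a1, a2⟩ := DD_dv h1
    obtain ⟨b1, b2⟩ := TT_dv h2
    obtain ⟨c1, c2⟩ := DD_dv h3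
    constructor
    · have := dv_cat5 (dv_tm (some 0)) a1 b1 (dv_tm (some 2)) c1
      have h := dv_rule (A := .D) (by simp [ruleSet]) this
      simpa [sm] using h
    · have := dv_cat5 c2 (dv_tm (some 2)) b2 a2 (dv_tm (some 0))
      have h := dv_rule (A := .Dr) (by simp [ruleSet]) this
      simpa [sm] using h
theorem TT_dv : ∀ {w : List (Fin 3)}, TT w → Dv [nt .T] (sm w) ∧ Dv [nt .Tr] (sm w.reverse)
  | _, .base (d := d) (d' := d') h1 h2 => by
    obtain ⟨a1, a2⟩ := DD_dv h1
    obtain ⟨c1, c2⟩ := DD_dv h2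
    constructor
    · have := dv_cat4 (dv_tm (some 2)) a1 (dv_tm (some 0)) c1
      have h := dv_rule (A := .T) (by simp [ruleSet]) this
      simpa [sm] using h
    · have := dv_cat4 c2 (dv_tm (some 0)) a2 (dv_tm (some 2))
      have h := dv_rule (A := .Tr) (by simp [ruleSet]) this
      simpa [sm] using h
  | _, .step (d := d) (t := t) (d' := d') h1 h2 h3 => by
    obtain ⟨a1, a2⟩ := DD_dv h1
    obtain ⟨b1, b2⟩ := TT_dv h2
    obtain ⟨c1, c2⟩ := DD_dv h3
    constructor
    · have := dv_cat5 (dv_tm (some 1)) a1 b1 (dv_tm (some 1)) c1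
      have h := dv_rule (A := .T) (by simp [ruleSet]) this
      simpa [sm] using h
    · have := dv_cat5 c2 (dv_tm (some 1)) b2 a2 (dv_tm (some 1))
      have h := dv_rule (A := .Tr) (by simp [ruleSet]) this
      simpa [sm] using h
end

/-- `EL s w`: the word `w` is in `D z₁ D ⋯ z_k D` where `s = z₁ ⋯ z_k`. -/
inductive EL : List (Fin 3) → List (Fin 3) → Prop
  | base {d : List (Fin 3)} : DD d → EL [] d
  | step {s w d : List (Fin 3)} {z : Fin 3} : DD d → EL s w → EL (z :: s) (d ++ ([z] ++ w))

theorem EL_right {s w d : List (Fin 3)} {z : Fin 3} (h : EL s w) (hd : DD d) :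
    EL (s ++ [z]) (w ++ ([z] ++ d)) := by
  induction h with
  | @base d' hd' => exact EL.step hd' (EL.base hd)
  | @step s w d' z' hd' _ ih =>
    have := EL.step (z := z') hd' ih
    simpa using this

theorem EL_of_EE {s w : List (Fin 3)} (h : EE s w) : EL s.reverse w := by
  induction h with
  | base hd => exact EL.base hd
  | step _ hd ih =>
    rw [List.reverse_cons]
    exact EL_right ih hd

theorem EL_dv {s u : List (Fin 3)} (hu : EL s u) : ∀ {v : List (Fin 3)}, EL s v →
    Dv [nt .S] (sm u ++ [none] ++ sm v.reverse) := by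
  induction hu with
  | @base d hd =>
    intro v hv
    cases hv with
    | base hd' =>
      have := dv_append (dv_append (DD_dv hd).1 (dv_tm none)) (DD_dv hd').2
      exact dv_rule (A := .S) (by simp [ruleSet]) this
  | @step s w d z hd _ ih =>
    intro v hv
    cases hv with
    | @step _ w' d' _ hd' hw' =>
      have h1 := ih hw'
      have h2 := dv_cat5 (DD_dv hd).1 (dv_tm (some z)) h1 (dv_tm (some z)) (DD_dv hd').2
      have hr : (⟨.S, [nt .D] ++ [tm z] ++ [nt .S] ++ [tm z] ++ [nt .Dr]⟩ :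
          ContextFreeRule (Option (Fin 3)) NT) ∈ ruleSet := by
        have hz : z = 0 ∨ z = 1 ∨ z = 2 := by fin_cases z <;> simp
        rcases hz with rfl | rfl | rfl <;> simp [ruleSet]
      have h3 := dv_rule hr h2
      simpa [sm] using h3

/-! ### Soundness of the grammar -/

/-- The language of a nonterminal. -/
def I : NT → Set (List (Option (Fin 3)))
  | .S => {w | ∃ u v : List (Fin 3), P u = P v ∧ w = sm u ++ [none] ++ sm v.reverse}
  | .D => {w | ∃ u : List (Fin 3), P u = 1 ∧ w = sm u}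
  | .Dr => {w | ∃ u : List (Fin 3), P u = 1 ∧ w = sm u.reverse}
  | .T => {w | ∃ (u : List (Fin 3)) (n : ℕ),
      P u = P (List.replicate n 1) * P [2] * P [0] * P (List.replicate n 1) ∧ w = sm u}
  | .Tr => {w | ∃ (u : List (Fin 3)) (n : ℕ),
      P u = P (List.replicate n 1) * P [2] * P [0] * P (List.replicate n 1) ∧ w = sm u.reverse}

/-- The language of a sentential form. -/
def IF : SF → Set (List (Option (Fin 3)))
  | [] => {[]}
  | .terminal t :: f => {w | ∃ v ∈ IF f, w = t :: v}
  | .nonterminal A :: f => {w | ∃ u ∈ I A, ∃ v ∈ IF f, w = u ++ v}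

theorem IF_append {f f' : SF} {w : List (Option (Fin 3))} :
    w ∈ IF (f ++ f') ↔ ∃ u ∈ IF f, ∃ v ∈ IF f', w = u ++ v := by
  induction f generalizing w with
  | nil =>
    constructor
    · intro h; exact ⟨[], rfl, w, h, rfl⟩
    · rintro ⟨u, hu, v, hv, rfl⟩
      have : u = [] := hu
      subst this
      exact hv
  | cons a f ih =>
    cases a with
    | terminal t =>
      constructor
      · rintro ⟨v, hv, rfl⟩
        obtain ⟨u1, h1, v1, h2, rfl⟩ := ih.1 hv
        exact ⟨t :: u1, ⟨u1, h1, rfl⟩, v1, h2, rfl⟩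
      · rintro ⟨u, ⟨u1, h1, rfl⟩, v, hv, rfl⟩
        exact ⟨u1 ++ v, ih.2 ⟨u1, h1, v, hv, rfl⟩, rfl⟩
    | nonterminal A =>
      constructor
      · rintro ⟨u0, h0, v, hv, rfl⟩
        obtain ⟨u1, h1, v1, h2, rfl⟩ := ih.1 hv
        exact ⟨u0 ++ u1, ⟨u0, h0, u1, h1, rfl⟩, v1, h2, by simp⟩
      · rintro ⟨u, ⟨u0, h0, u1, h1, rfl⟩, v, hv, rfl⟩
        exact ⟨u0, h0, u1 ++ v, ih.2 ⟨u1, h1, v, hv, rfl⟩, by simp⟩

theorem relw (n : ℕ) : P [0] * (P (List.replicate n 1) * P [2] * P [0] *
    P (List.replicate n 1)) * P [2] = 1 := by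
  have h := P_rel n
  have e : P (xw n) = P [0] * P (List.replicate n 1) * P [2] := by
    rw [← P_append, ← P_append]
    rfl
  rw [e] at h
  simpa only [mul_assoc] using h

theorem stepw (n : ℕ) : P [1] * (P (List.replicate n 1) * P [2] * P [0] *
    P (List.replicate n 1)) * P [1] =
    P (List.replicate (n + 1) 1) * P [2] * P [0] * P (List.replicate (n + 1) 1) := by
  have e1 : P (List.replicate (n + 1) 1) = P [1] * P (List.replicate n 1) := P_append [1] _
  have e2 : P (List.replicate (n + 1) 1) = P (List.replicate n 1) * P [1] := by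
    rw [List.replicate_succ', P_append]
  have key : P [1] * (P (List.replicate n 1) * P [2] * P [0] * P (List.replicate n 1)) * P [1] =
      (P [1] * P (List.replicate n 1)) * P [2] * P [0] * (P (List.replicate n 1) * P [1]) := by
    simp only [mul_assoc]
  rw [key, ← e1, ← e2]

theorem sound_rule (r : ContextFreeRule (Option (Fin 3)) NT) (hr : r ∈ ruleSet) :
    IF r.output ⊆ I r.input := by
  simp only [ruleSet, Finset.mem_insert, Finset.mem_singleton] at hr
  rcases hr with rfl | rfl | rfl | rfl | rfl | rfl | rfl | rfl | rfl | rfl | rfl | rfl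
  · rintro w ⟨_, ⟨u, hu, rfl⟩, _, ⟨_, ⟨_, ⟨v, hv, rfl⟩, _, rfl, rfl⟩, rfl⟩, rfl⟩
    exact ⟨u, v, by rw [hu, hv], by simp [sm]⟩
  · rintro w ⟨_, ⟨u, hu, rfl⟩, _, ⟨_, ⟨_, ⟨x, y, hxy, rfl⟩, _, ⟨_, ⟨_, ⟨v, hv, rfl⟩, _, rfl,
      rfl⟩, rfl⟩, rfl⟩, rfl⟩, rfl⟩
    refine ⟨u ++ [0] ++ x, v ++ [0] ++ y, ?_, by simp [sm]⟩
    simp only [P_append, hu, hv, hxy]
  · rintro w ⟨_, ⟨u, hu, rfl⟩, _, ⟨_, ⟨_, ⟨x, y, hxy, rfl⟩, _, ⟨_, ⟨_, ⟨v, hv, rfl⟩, _, rfl,
      rfl⟩, rfl⟩, rfl⟩, rfl⟩, rfl⟩
    refine ⟨u ++ [1] ++ x, v ++ [1] ++ y, ?_, by simp [sm]⟩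
    simp only [P_append, hu, hv, hxy]
  · rintro w ⟨_, ⟨u, hu, rfl⟩, _, ⟨_, ⟨_, ⟨x, y, hxy, rfl⟩, _, ⟨_, ⟨_, ⟨v, hv, rfl⟩, _, rfl,
      rfl⟩, rfl⟩, rfl⟩, rfl⟩, rfl⟩
    refine ⟨u ++ [2] ++ x, v ++ [2] ++ y, ?_, by simp [sm]⟩
    simp only [P_append, hu, hv, hxy]
  · rintro w rfl
    exact ⟨[], P_nil, rfl⟩
  · rintro w ⟨_, ⟨_, ⟨u, hu, rfl⟩, _, ⟨_, ⟨t, n, ht, rfl⟩, _, ⟨_, ⟨_, ⟨v, hv, rfl⟩, _, rfl,
      rfl⟩, rfl⟩, rfl⟩, rfl⟩, rfl⟩
    refine ⟨[0] ++ u ++ t ++ [2] ++ v, ?_, by simp [sm]⟩
    simp only [P_append, hu, hv, ht, mul_one]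
    exact relw n
  · rintro w ⟨_, ⟨_, ⟨u, hu, rfl⟩, _, ⟨_, ⟨_, ⟨v, hv, rfl⟩, _, rfl, rfl⟩, rfl⟩, rfl⟩, rfl⟩
    refine ⟨[2] ++ u ++ [0] ++ v, 0, ?_, by simp [sm]⟩
    simp only [P_append, hu, hv, mul_one, List.replicate_zero, P_nil, one_mul]
  · rintro w ⟨_, ⟨_, ⟨u, hu, rfl⟩, _, ⟨_, ⟨t, n, ht, rfl⟩, _, ⟨_, ⟨_, ⟨v, hv, rfl⟩, _, rfl,
      rfl⟩, rfl⟩, rfl⟩, rfl⟩, rfl⟩
    refine ⟨[1] ++ u ++ t ++ [1] ++ v, n + 1, ?_, by simp [sm]⟩
    simp only [P_append, hu, hv, ht, mul_one]
    exact stepw n
  · rintro w rfl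
    exact ⟨[], P_nil, rfl⟩
  · rintro w ⟨_, ⟨v, hv, rfl⟩, _, ⟨_, ⟨_, ⟨t, n, ht, rfl⟩, _, ⟨_, ⟨u, hu, rfl⟩, _, ⟨_, rfl,
      rfl⟩, rfl⟩, rfl⟩, rfl⟩, rfl⟩
    refine ⟨[0] ++ u ++ t ++ [2] ++ v, ?_, by simp [sm]⟩
    simp only [P_append, hu, hv, ht, mul_one]
    exact relw n
  · rintro w ⟨_, ⟨v, hv, rfl⟩, _, ⟨_, ⟨_, ⟨u, hu, rfl⟩, _, ⟨_, rfl, rfl⟩, rfl⟩, rfl⟩, rfl⟩
    refine ⟨[2] ++ u ++ [0] ++ v, 0, ?_, by simp [sm]⟩
    simp only [P_append, hu, hv, mul_one, List.replicate_zero, P_nil, one_mul]
  · rintro w ⟨_, ⟨v, hv, rfl⟩, _, ⟨_, ⟨_, ⟨t, n, ht, rfl⟩, _, ⟨_, ⟨u, hu, rfl⟩, _, ⟨_, rfl,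
      rfl⟩, rfl⟩, rfl⟩, rfl⟩, rfl⟩
    refine ⟨[1] ++ u ++ t ++ [1] ++ v, n + 1, ?_, by simp [sm]⟩
    simp only [P_append, hu, hv, ht, mul_one]
    exact stepw n

theorem sound {f f' : SF} (h : GG.Derives f f') : IF f' ⊆ IF f := by
  induction h with
  | refl => exact le_rfl
  | @tail g g' _ hstep ih =>
    refine Set.Subset.trans ?_ ih
    obtain ⟨r, hr, hrw⟩ := hstep
    obtain ⟨p, q, rfl, rfl⟩ := hrw.exists_parts
    intro w hw
    have hw' := hw
    rw [List.append_assoc] at hw'
    obtain ⟨u, hu, v, hv, rfl⟩ := IF_append.1 hw'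
    obtain ⟨v1, hv1, v2, hv2, rfl⟩ := IF_append.1 hv
    have h1 := sound_rule r hr hv1
    have h2 : u ++ (v1 ++ v2) ∈ IF (p ++ ([Symbol.nonterminal r.input] ++ q)) :=
      IF_append.2 ⟨u, hu, v1 ++ v2, ⟨v1, h1, v2, hv2, rfl⟩, rfl⟩
    have e : p ++ [Symbol.nonterminal r.input] ++ q = p ++ ([Symbol.nonterminal r.input] ++ q) :=
      List.append_assoc _ _ _
    exact e ▸ h2

theorem mem_IF_terminal (w : List (Option (Fin 3))) : w ∈ IF (w.map Symbol.terminal) := by
  induction w with
  | nil => rfl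
  | cons a w ih => exact ⟨w, ih, rfl⟩

theorem WP_CF : (WP (PresentedMonoid.mk rels)).IsContextFree := by
  refine ⟨GG, ?_⟩
  ext w
  rw [ContextFreeGrammar.mem_language_iff]
  constructor
  · intro h
    have h1 := sound h (mem_IF_terminal w)
    obtain ⟨u, ⟨x, y, hxy, rfl⟩, v, hv, rfl⟩ := h1
    have : v = [] := hv
    subst this
    exact ⟨x, y, hxy, by simp [sm]⟩
  · rintro ⟨u, v, huv, rfl⟩
    have h1 := EL_of_EE (EE_nf u)
    have h2 := EL_of_EE (EE_nf v)
    have h3 : nf u = nf v := nf_inv huv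
    rw [← h3] at h2
    exact EL_dv h1 h2

/-- There is a monoid, finitely generated with context-free word problem, whose group of units
is not finitely generated. -/
theorem result : ∃ (A M : Type) (_ : Fintype A) (_ : Monoid M) (π : FreeMonoid A →* M),
    Function.Surjective π ∧ (WP π).IsContextFree ∧ ¬ Group.FG Mˣ :=
  ⟨Fin 3, M, inferInstance, inferInstance, PresentedMonoid.mk rels,
    PresentedMonoid.surjective_mk, WP_CF, not_fg⟩

end Pool.Agent.Results.MP_435286_al.UnitsNotFG
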